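import Pool.Agent.H590.MA.Coord
import Pool.Agent.H322.AM.Num
import Pool.Agent.H322.NM.Top
import Pool.Agent.H771.LT.H

/-!
# The mean asymmetry and the volume product
-/

set_option autoImplicit false
set_option linter.unusedSectionVars false

open MeasureTheory Set Multiset Module Filter Topology
open scoped Pointwise NNReal ENNReal Matrix

noncomputable section

namespace Pool.Agent.H590.MA

open Pool.Agent.TH650.MV Pool.Agent.H590.M3 W679AM

variable {n : ℕ} {K : Set (Fin n → ℝ)}

/-- difference quotient -/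
def dq (K : Set (Fin n → ℝ)) (t : ℝ) : ℝ :=
  (volume.real (K + t • (-K)) / volume.real K - 1) / (n * t)

/-- the mean asymmetry `V(K, …, K, -K) / |K|`, as an infimum of difference quotients -/
def asym (K : Set (Fin n → ℝ)) : ℝ := ⨅ t : Set.Ioi (0 : ℝ), dq K t

section
variable {m : ℕ} {K : Set (Fin (m + 1) → ℝ)}

/-- the mixed volume -/
def v1 (h : OBody K) : ℝ := V volume (rf (cb h) ::ₘ replicate m (cb h)) / volume.real K

theorem fin_eq : finrank ℝ (Fin (m + 1) → ℝ) = m + 1 := by simp

theorem v1_le_dq (h : OBody K) {t : ℝ} (ht : 0 < t) : v1 h ≤ dq K t := by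
  have h1 := lin_le (volume : Measure (Fin (m + 1) → ℝ)) fin_eq (cb h) (rf (cb h)) ⟨t, ht.le⟩
  have h1' : vl volume (cb h + (⟨t, ht.le⟩ : ℝ≥0) • rf (cb h)) = volume.real (K + t • (-K)) :=
    vl_dil h ⟨t, ht.le⟩
  have h2 : volume.real K + ((m : ℝ) + 1) * t * V volume (rf (cb h) ::ₘ replicate m (cb h)) ≤
      volume.real (K + t • (-K)) := by
    rw [← h1']
    exact h1
  have hV := vl_pos h
  unfold v1 dq
  rw [div_le_div_iff₀ hV (by positivity)]
  have e : (volume.real (K + t • (-K)) / volume.real K - 1) * volume.real K =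
      volume.real (K + t • (-K)) - volume.real K := by
    field_simp
  rw [e]
  push_cast
  nlinarith

theorem one_le_v1 (h : OBody K) : 1 ≤ v1 h := by
  have hV := vl_pos h
  have hrf : vl volume (rf (cb h)) = volume.real K := by
    unfold vl
    rw [coe_rf']
    show (volume (-K)).toReal = _
    rw [Measure.measure_neg]
    rfl
  set a : ℝ := (volume.real K) ^ (((m + 1 : ℕ) : ℝ)⁻¹) with ha
  have ha0 : 0 < a := Real.rpow_pos_of_pos hV _
  have haA : a ^ (m + 1) = volume.real K := Real.rpow_inv_natCast_pow hV.le (by omega)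
  have h1 := mink1 (volume : Measure (Fin (m + 1) → ℝ)) fin_eq (cb h) (rf (cb h)) ha0 ha0.le
    (by rw [vl_cb]; exact haA) (by rw [hrf]; exact haA.le)
  rw [← pow_succ, haA] at h1
  unfold v1
  rw [le_div_iff₀ hV, one_mul]
  exact h1

theorem v1_le_asym (h : OBody K) : v1 h ≤ asym K := by
  haveI : Nonempty (Set.Ioi (0 : ℝ)) := ⟨⟨(1 : ℝ), Set.mem_Ioi.2 one_pos⟩⟩
  exact le_ciInf fun t => v1_le_dq h t.2

theorem bdd_dq (h : OBody K) : BddBelow (range fun t : Set.Ioi (0 : ℝ) => dq K t) := by
  refine ⟨v1 h, ?_⟩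
  rintro _ ⟨t, rfl⟩
  exact v1_le_dq h t.2

/-- the volume product in terms of the mean asymmetry -/
theorem prm_asym (h : OBody K) :
    volume.real (prm K) ≤ (asym K / (1 + asym K)) ^ (m + 1) * volume.real K := by
  have h1 := one_le_v1 h
  have h2 := v1_le_asym h
  have hV := vl_pos h
  refine harm_vol (volume : Measure (Fin (m + 1) → ℝ)) fin_eq (isHarm_hb h)
    (fun f hf => pos_cb h f hf) hV (by linarith) ?_
  show V volume (rf (cb h) ::ₘ replicate m (cb h)) ≤ asym K * volume.real K
  rw [← div_le_iff₀ hV]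
  exact h2

/-- the Minkowski asymmetry bounds the mean asymmetry -/
theorem asym_le (h : OBody K) {β : ℝ} (hβ : 1 ≤ β) {c : Fin (m + 1) → ℝ}
    (hsym : ∀ x ∈ K, c - β⁻¹ • (x - c) ∈ K) : asym K ≤ β := by
  have hV := vl_pos h
  have hβ0 : 0 < β := by linarith
  have hle : ∀ t : ℝ, 0 < t → asym K ≤ ((1 + t * β) ^ (m + 1) - 1) / ((m + 1 : ℕ) * t) := by
    intro t ht
    have h1 : asym K ≤ dq K t := ciInf_le (bdd_dq h) ⟨t, ht⟩
    refine h1.trans ?_
    unfold dq
    refine div_le_div_of_nonneg_right ?_ (by positivity)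
    have h2 : volume.real (K + t • (-K)) ≤ (1 + t * β) ^ (m + 1) * volume.real K := by
      have hsub : K + t • (-K) ⊆ (fun y => y + (-(t * (1 + β)) • c)) '' ((1 + t * β) • K) := by
        rintro _ ⟨a, ha, _, ⟨b, hb, rfl⟩, rfl⟩
        have hb' : -b ∈ K := hb
        have h3 := hsym _ hb'
        have htb : 0 < 1 + t * β := by positivity
        refine ⟨a + (t * β) • (c - β⁻¹ • (-b - c)), ?_, ?_⟩
        · refine ⟨(1 + t * β)⁻¹ • (a + (t * β) • (c - β⁻¹ • (-b - c))), ?_, ?_⟩
          · have e : (1 + t * β)⁻¹ • (a + (t * β) • (c - β⁻¹ • (-b - c))) =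
                (1 + t * β)⁻¹ • a + ((1 + t * β)⁻¹ * (t * β)) • (c - β⁻¹ • (-b - c)) := by
              rw [smul_add, smul_smul]
            rw [e]
            refine h.conv ha h3 (by positivity) (by positivity) ?_
            field_simp
          · show (1 + t * β) • ((1 + t * β)⁻¹ • _) = _
            rw [smul_smul, mul_inv_cancel₀ htb.ne', one_smul]
        · show a + (t * β) • (c - β⁻¹ • (-b - c)) + -(t * (1 + β)) • c = a + t • b
          have e2 : (t * β) • (c - β⁻¹ • (-b - c)) = (t * β) • c - t • (-b - c) := by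
            rw [smul_sub, smul_smul, mul_assoc, mul_inv_cancel₀ hβ0.ne', mul_one]
          rw [e2]
          module
      have h4 : volume (K + t • (-K)) ≤ ENNReal.ofReal ((1 + t * β) ^ (m + 1)) * volume K := by
        refine (measure_mono hsub).trans (le_of_eq ?_)
        rw [image_add_right, measure_preimage_add_right, Measure.addHaar_smul]
        rw [abs_of_nonneg (by positivity)]
        congr 2
        simp
      have hfin : ENNReal.ofReal ((1 + t * β) ^ (m + 1)) * volume K ≠ ⊤ :=
        ENNReal.mul_ne_top ENNReal.ofReal_ne_top h.comp.measure_lt_top.ne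
      have h5 := ENNReal.toReal_mono hfin h4
      rw [ENNReal.toReal_mul, ENNReal.toReal_ofReal (by positivity)] at h5
      exact h5
    have h6 : volume.real (K + t • (-K)) / volume.real K ≤ (1 + t * β) ^ (m + 1) := by
      rw [div_le_iff₀ hV]; exact h2
    linarith
  have hder : HasDerivAt (fun t : ℝ => (1 + t * β) ^ (m + 1)) (((m + 1 : ℕ) : ℝ) * β) 0 := by
    have h1 : HasDerivAt (fun t : ℝ => 1 + t * β) β 0 := by
      simpa using ((hasDerivAt_id (0 : ℝ)).mul_const β).const_add 1
    have h2 := h1.fun_pow (m + 1)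
    simpa using h2
  have hlim : Tendsto (fun t : ℝ => ((1 + t * β) ^ (m + 1) - 1) / ((m + 1 : ℕ) * t)) (𝓝[>] 0)
      (𝓝 β) := by
    have h1 := hder.tendsto_slope_zero_right
    have h2 := h1.div_const ((m + 1 : ℕ) : ℝ)
    have e : ((m + 1 : ℕ) : ℝ) * β / ((m + 1 : ℕ) : ℝ) = β := by
      field_simp
    rw [e] at h2
    refine h2.congr' ?_
    filter_upwards [self_mem_nhdsWithin] with t ht
    have ht0 : t ≠ 0 := ne_of_gt ht
    simp only [zero_add, zero_mul, add_zero, one_pow, smul_eq_mul]
    field_simp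
  refine ge_of_tendsto hlim ?_
  filter_upwards [self_mem_nhdsWithin] with t ht
  exact hle t ht

end

end Pool.Agent.H590.MA

end
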