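import Pool.Agent.H590.MA.Mink1
import Pool.Agent.H590.M3.Three
import Pool.Agent.H798.NM.Asym
import Pool.Graph.R_seed8.TH984.GE.Final
import Pool.Graph.R_seed8.TH984.GE.Ineq

/-!
# The harmonic body in coordinates
-/

set_option autoImplicit false
set_option linter.unusedSectionVars false

open MeasureTheory Set Multiset Module
open scoped Pointwise NNReal ENNReal Matrix

noncomputable section

namespace Pool.Agent.H590.MA

open Pool.Agent.TH650.MV Pool.Agent.H590.M3 W679AM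

variable {n : ℕ} {K : Set (Fin n → ℝ)}

/-- the convex body of the set -/
def cb (h : OBody K) : ConvexBody (Fin n → ℝ) := ⟨K, h.conv, h.comp, ⟨0, interior_subset h.zero⟩⟩

/-- the vector of a functional -/
def vv (f : (Fin n → ℝ) →L[ℝ] ℝ) : Fin n → ℝ := fun i => f (Pi.single i 1)

theorem vv_apply (f : (Fin n → ℝ) →L[ℝ] ℝ) (x : Fin n → ℝ) : x ⬝ᵥ vv f = f x := by
  have e : x = ∑ i, x i • (Pi.single i (1 : ℝ) : Fin n → ℝ) := by
    ext j
    simp [Finset.sum_apply, Pi.single_apply]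
  conv_rhs => rw [e, map_sum]
  unfold dotProduct vv
  refine Finset.sum_congr rfl fun i _ => ?_
  rw [map_smul, smul_eq_mul]

theorem vv_neg (f : (Fin n → ℝ) →L[ℝ] ℝ) : vv (-f) = -vv f := rfl

theorem vv_ne {f : (Fin n → ℝ) →L[ℝ] ℝ} (hf : f ≠ 0) : vv f ≠ 0 := by
  intro h
  refine hf ?_
  ext x
  rw [← vv_apply, h, dotProduct_zero]
  rfl

theorem sp_cb (h : OBody K) (f : (Fin n → ℝ) →L[ℝ] ℝ) : sp (cb h) f = hs K (vv f) := by
  unfold sp hs
  congr 1
  exact image_congr fun x _ => (vv_apply f x).symm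

theorem prm_convex (h : OBody K) : Convex ℝ (prm K) := by
  intro x hx y hy a b ha hb hab u
  have h1 := hx u
  have h2 := hy u
  have hs' : 0 ≤ hs K u + hs K (-u) := add_nonneg (GAaux.hs_nonneg h u) (GAaux.hs_nonneg h (-u))
  have h3 : |(a • x + b • y) ⬝ᵥ u| ≤ a * |x ⬝ᵥ u| + b * |y ⬝ᵥ u| := by
    rw [add_dotProduct, smul_dotProduct, smul_dotProduct, smul_eq_mul, smul_eq_mul]
    refine (abs_add_le _ _).trans ?_
    rw [abs_mul, abs_mul, abs_of_nonneg ha, abs_of_nonneg hb]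
  calc |(a • x + b • y) ⬝ᵥ u| * (hs K u + hs K (-u)) ≤
        (a * |x ⬝ᵥ u| + b * |y ⬝ᵥ u|) * (hs K u + hs K (-u)) :=
        mul_le_mul_of_nonneg_right h3 hs'
    _ = a * (|x ⬝ᵥ u| * (hs K u + hs K (-u))) + b * (|y ⬝ᵥ u| * (hs K u + hs K (-u))) := by ring
    _ ≤ a * (hs K u * hs K (-u)) + b * (hs K u * hs K (-u)) :=
        add_le_add (mul_le_mul_of_nonneg_left h1 ha) (mul_le_mul_of_nonneg_left h2 hb)
    _ = _ := by rw [← add_mul, hab, one_mul]

theorem prm_subset (h : OBody K) : prm K ⊆ K := by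
  intro x hx
  refine Pool.Agent.H798.NM.mem_of_le_hs h fun u => ?_
  have h1 := hx u
  have p1 : 0 ≤ hs K u := GAaux.hs_nonneg h _
  have p2 : 0 ≤ hs K (-u) := GAaux.hs_nonneg h _
  rcases eq_or_ne u 0 with rfl | hu
  · rw [dotProduct_zero]; exact p1
  · have h2 := Pool.Agent.H798.NM.sum_hs_pos h hu
    by_contra hcon
    push Not at hcon
    have h3 := le_abs_self (x ⬝ᵥ u)
    nlinarith

theorem zero_mem_prm (h : OBody K) : (0 : Fin n → ℝ) ∈ prm K := by
  intro u
  rw [zero_dotProduct, abs_zero, zero_mul]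
  exact mul_nonneg (GAaux.hs_nonneg h u) (GAaux.hs_nonneg h (-u))

/-- the harmonic body -/
def hb (h : OBody K) : ConvexBody (Fin n → ℝ) :=
  ⟨prm K, prm_convex h, h.comp.of_isClosed_subset (Pool.Agent.H798.NM.prm_closed K)
    (prm_subset h), ⟨0, zero_mem_prm h⟩⟩

theorem isHarm_hb (h : OBody K) : IsHarm (cb h) (hb h) := by
  intro x hx f
  have h1 : |x ⬝ᵥ vv f| * (hs K (vv f) + hs K (-vv f)) ≤ hs K (vv f) * hs K (-vv f) := hx (vv f)
  rw [sp_cb, sp_cb, vv_neg, ← vv_apply]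
  exact h1

theorem pos_cb (h : OBody K) (f : (Fin n → ℝ) →L[ℝ] ℝ) (hf : f ≠ 0) : 0 < sp (cb h) f := by
  rw [sp_cb]
  exact GAaux.hs_pos h (vv_ne hf)

theorem vl_cb (h : OBody K) : vl volume (cb h) = volume.real K := rfl

theorem vl_hb (h : OBody K) : vl volume (hb h) = volume.real (prm K) := rfl

theorem vl_pos (h : OBody K) : 0 < volume.real K :=
  ENNReal.toReal_pos (lt_of_lt_of_le (isOpen_interior.measure_pos volume ⟨0, h.zero⟩)
    (measure_mono interior_subset)).ne' h.comp.measure_lt_top.ne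

theorem coe_rf' (L : ConvexBody (Fin n → ℝ)) :
    (rf L : Set (Fin n → ℝ)) = -(L : Set (Fin n → ℝ)) := by
  ext x
  constructor
  · rintro ⟨y, hy, rfl⟩
    simpa using hy
  · intro hx
    exact ⟨-x, hx, by simp⟩

theorem rf_hb (h : OBody K) : rf (hb h) = hb h := by
  apply SetLike.coe_injective
  rw [coe_rf']
  show -(prm K) = prm K
  ext x
  constructor
  · intro hx
    have := Pool.Agent.H798.NM.prm_neg (Set.mem_neg.1 hx)
    rwa [neg_neg] at this
  · intro hx
    exact Set.mem_neg.2 (Pool.Agent.H798.NM.prm_neg hx)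

theorem vol_neg' : (volume : Measure (Fin n → ℝ)).map (fun x => -x) = volume :=
  Measure.map_neg_eq_self _

theorem exists_eps' (h : OBody K) : ∃ ε : ℝ≥0, 0 < ε ∧ ε • cb h ≤ hb h := by
  obtain ⟨r, hr, hball⟩ :=
    Metric.nhds_basis_closedBall.mem_iff.1 (mem_interior_iff_mem_nhds.1 h.zero)
  obtain ⟨R, hR0, hR⟩ : ∃ R : ℝ, 0 < R ∧ ∀ x ∈ K, ‖x‖ ≤ R := by
    obtain ⟨R, hR⟩ := h.comp.isBounded.exists_norm_le
    exact ⟨max R 1, by positivity, fun x hx => (hR x hx).trans (le_max_left _ _)⟩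
  set ρ := r / R with hρ
  have hρ0 : 0 < ρ := by positivity
  have hneg : ∀ u : Fin n → ℝ, ρ * hs K (-u) ≤ hs K u := by
    intro u
    have h1 : ∀ x ∈ K, -(ρ • x) ∈ K := by
      intro x hx
      refine hball ?_
      rw [mem_closedBall_zero_iff, norm_neg, norm_smul, Real.norm_eq_abs, abs_of_pos hρ0, hρ,
        div_mul_eq_mul_div, div_le_iff₀ hR0]
      exact mul_le_mul_of_nonneg_left (hR x hx) hr.le
    have h2 : hs K (-u) ≤ hs K u / ρ := by
      refine GAaux.hs_le h _ _ fun x hx => ?_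
      rw [le_div_iff₀ hρ0]
      have h3 := GAaux.le_hs h (h1 x hx) u
      rw [neg_dotProduct, smul_dotProduct, smul_eq_mul] at h3
      rw [dotProduct_neg]
      linarith
    rw [le_div_iff₀ hρ0] at h2
    linarith
  refine ⟨⟨ρ / 2, by positivity⟩, by exact_mod_cast (by positivity : (0 : ℝ) < ρ / 2), ?_⟩
  rintro _ ⟨x, hx, rfl⟩
  show (ρ / 2) • x ∈ prm K
  intro u
  have h1 := hneg u
  have h2 := hneg (-u)
  rw [neg_neg] at h2
  have h3 : x ⬝ᵥ u ≤ hs K u := GAaux.le_hs h hx u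
  have h4 : -(x ⬝ᵥ u) ≤ hs K (-u) := by
    have := GAaux.le_hs h hx (-u)
    rwa [dotProduct_neg] at this
  have h5 : 0 ≤ hs K u := GAaux.hs_nonneg h u
  have h6 : 0 ≤ hs K (-u) := GAaux.hs_nonneg h (-u)
  rw [smul_dotProduct, smul_eq_mul]
  set s := hs K u with hs'
  set t := hs K (-u) with ht'
  have h7 : |x ⬝ᵥ u| ≤ max s t :=
    abs_le.2 ⟨by linarith [le_max_right s t], h3.trans (le_max_left _ _)⟩
  rw [abs_mul, abs_of_pos (by positivity)]
  have h8 : ρ / 2 * max s t * (s + t) ≤ s * t := by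
    rcases le_total s t with hst | hst
    · rw [max_eq_right hst]
      have : ρ * t * (s + t) ≤ s * (s + t) := mul_le_mul_of_nonneg_right h1 (by linarith)
      nlinarith
    · rw [max_eq_left hst]
      have : ρ * s * (s + t) ≤ t * (s + t) := mul_le_mul_of_nonneg_right h2 (by linarith)
      nlinarith
  refine le_trans ?_ h8
  exact mul_le_mul_of_nonneg_right (mul_le_mul_of_nonneg_left h7 (by positivity)) (by linarith)

/-- the volume of the difference body -/
theorem vl_diff_cb (h : OBody K) : vl volume (cb h + rf (cb h)) = volume.real (K - K) := by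
  unfold vl
  rw [ConvexBody.coe_add, coe_rf']
  have : ((cb h : Set (Fin n → ℝ)) + -(cb h : Set (Fin n → ℝ))) = K - K := by
    show K + -K = K - K
    rw [sub_eq_add_neg]
  rw [this]
  rfl

/-- the volume of `K + c (-K)` -/
theorem vl_dil (h : OBody K) (c : ℝ≥0) :
    vl volume (cb h + c • rf (cb h)) = volume.real (K + (c : ℝ) • (-K)) := by
  unfold vl
  rw [ConvexBody.coe_add, ConvexBody.coe_smul', coe_rf']
  rfl

end Pool.Agent.H590.MA

end
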