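import Pool.Agent.H590.M3.Gen

/-!
# Minkowski's first inequality and the harmonic body in all dimensions
-/

set_option autoImplicit false
set_option linter.unusedSectionVars false

open MeasureTheory Set Multiset Module
open scoped Pointwise NNReal ENNReal

noncomputable section

namespace Pool.Agent.H590.MA

open Pool.Agent.TH650.MV Pool.Agent.H590.M3

variable {G : Type*} [NormedAddCommGroup G] [NormedSpace ℝ G] [FiniteDimensional ℝ G]
  [MeasurableSpace G] [BorelSpace G] (μ : Measure G) [μ.IsAddHaarMeasure]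

/-- the volume of `A + c B` is at least its linear part -/
theorem lin_le {m : ℕ} (hm : finrank ℝ G = m + 1) (A B : ConvexBody G) (c : ℝ≥0) :
    vl μ A + ((m : ℝ) + 1) * c * V μ (B ::ₘ replicate m A) ≤ vl μ (A + c • B) := by
  rw [vl_add_smul, hm, Finset.sum_range_succ', Finset.sum_range_succ']
  have e0 : (((m + 1).choose 0 : ℕ) : ℝ) * (c : ℝ) ^ 0 *
      V μ (replicate 0 B + replicate (m + 1 - 0) A) = vl μ A := by
    rw [Nat.choose_zero_right, pow_zero, replicate_zero, zero_add, Nat.sub_zero, ← hm, V_self]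
    norm_num
  have e1 : (((m + 1).choose (0 + 1) : ℕ) : ℝ) * (c : ℝ) ^ (0 + 1) *
      V μ (replicate (0 + 1) B + replicate (m + 1 - (0 + 1)) A) =
      ((m : ℝ) + 1) * c * V μ (B ::ₘ replicate m A) := by
    rw [zero_add, Nat.choose_one_right, pow_one, replicate_one, Nat.add_sub_cancel, singleton_add]
    push_cast
    ring
  rw [e0, e1]
  have h : 0 ≤ ∑ k ∈ Finset.range m, (((m + 1).choose (k + 1 + 1) : ℕ) : ℝ) * (c : ℝ) ^ (k + 1 + 1) *
      V μ (replicate (k + 1 + 1) B + replicate (m + 1 - (k + 1 + 1)) A) := by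
    refine Finset.sum_nonneg fun k hk => ?_
    have hk' := Finset.mem_range.1 hk
    exact mul_nonneg (by positivity) (V_nonneg μ _ (by
      rw [card_add, card_replicate, card_replicate, hm]; omega))
  linarith

/-- the volume of `A + c B` is at most its linear part plus `C c²`, for `c ≤ 1` -/
theorem quad_ge {m : ℕ} (hm : finrank ℝ G = m + 1) (A B : ConvexBody G) :
    ∃ C : ℝ, 0 ≤ C ∧ ∀ c : ℝ≥0, c ≤ 1 → vl μ (A + c • B) ≤
      vl μ A + ((m : ℝ) + 1) * c * V μ (B ::ₘ replicate m A) + C * (c : ℝ) ^ 2 := by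
  refine ⟨∑ k ∈ Finset.range m, (((m + 1).choose (k + 1 + 1) : ℕ) : ℝ) *
      V μ (replicate (k + 1 + 1) B + replicate (m + 1 - (k + 1 + 1)) A), ?_, ?_⟩
  · refine Finset.sum_nonneg fun k hk => ?_
    have hk' := Finset.mem_range.1 hk
    exact mul_nonneg (by positivity) (V_nonneg μ _ (by
      rw [card_add, card_replicate, card_replicate, hm]; omega))
  · intro c hc
    rw [vl_add_smul, hm, Finset.sum_range_succ', Finset.sum_range_succ']
    have e0 : (((m + 1).choose 0 : ℕ) : ℝ) * (c : ℝ) ^ 0 *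
        V μ (replicate 0 B + replicate (m + 1 - 0) A) = vl μ A := by
      rw [Nat.choose_zero_right, pow_zero, replicate_zero, zero_add, Nat.sub_zero, ← hm, V_self]
      norm_num
    have e1 : (((m + 1).choose (0 + 1) : ℕ) : ℝ) * (c : ℝ) ^ (0 + 1) *
        V μ (replicate (0 + 1) B + replicate (m + 1 - (0 + 1)) A) =
        ((m : ℝ) + 1) * c * V μ (B ::ₘ replicate m A) := by
      rw [zero_add, Nat.choose_one_right, pow_one, replicate_one, Nat.add_sub_cancel, singleton_add]
      push_cast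
      ring
    rw [e0, e1]
    have hc1 : (c : ℝ) ≤ 1 := by exact_mod_cast hc
    have hc0 : (0 : ℝ) ≤ c := c.2
    have h : ∑ k ∈ Finset.range m, (((m + 1).choose (k + 1 + 1) : ℕ) : ℝ) * (c : ℝ) ^ (k + 1 + 1) *
        V μ (replicate (k + 1 + 1) B + replicate (m + 1 - (k + 1 + 1)) A) ≤
        (∑ k ∈ Finset.range m, (((m + 1).choose (k + 1 + 1) : ℕ) : ℝ) *
          V μ (replicate (k + 1 + 1) B + replicate (m + 1 - (k + 1 + 1)) A)) * (c : ℝ) ^ 2 := by
      rw [Finset.sum_mul]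
      refine Finset.sum_le_sum fun k hk => ?_
      have hk' := Finset.mem_range.1 hk
      have hV : 0 ≤ V μ (replicate (k + 1 + 1) B + replicate (m + 1 - (k + 1 + 1)) A) :=
        V_nonneg μ _ (by rw [card_add, card_replicate, card_replicate, hm]; omega)
      have hp : (c : ℝ) ^ (k + 1 + 1) ≤ (c : ℝ) ^ 2 := pow_le_pow_of_le_one hc0 hc1 (by omega)
      have e : (((m + 1).choose (k + 1 + 1) : ℕ) : ℝ) * (c : ℝ) ^ (k + 1 + 1) *
          V μ (replicate (k + 1 + 1) B + replicate (m + 1 - (k + 1 + 1)) A) =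
          ((((m + 1).choose (k + 1 + 1) : ℕ) : ℝ) *
          V μ (replicate (k + 1 + 1) B + replicate (m + 1 - (k + 1 + 1)) A)) *
          (c : ℝ) ^ (k + 1 + 1) := by ring
      rw [e]
      exact mul_le_mul_of_nonneg_left hp (mul_nonneg (by positivity) hV)
    linarith

/-- **Minkowski's first inequality**, with roots -/
theorem mink1 {m : ℕ} (hm : finrank ℝ G = m + 1) (A B : ConvexBody G) {a b : ℝ} (ha : 0 < a)
    (hb : 0 ≤ b) (hA : a ^ (m + 1) = vl μ A) (hB : b ^ (m + 1) ≤ vl μ B) :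
    a ^ m * b ≤ V μ (B ::ₘ replicate m A) := by
  obtain ⟨C, hC, h⟩ := quad_ge μ hm A B
  have key : ∀ c : ℝ, 0 < c → c ≤ 1 →
      ((m : ℝ) + 1) * (a ^ m * b) ≤ ((m : ℝ) + 1) * V μ (B ::ₘ replicate m A) + C * c := by
    intro c hc hc1
    have h1 : vl μ (A + (⟨c, hc.le⟩ : ℝ≥0) • B) ≤
        vl μ A + ((m : ℝ) + 1) * c * V μ (B ::ₘ replicate m A) + C * c ^ 2 :=
      h ⟨c, hc.le⟩ (by exact_mod_cast hc1)
    have h2 : (a + c * b) ^ (m + 1) ≤ vl μ (A + (⟨c, hc.le⟩ : ℝ≥0) • B) := by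
      have h3 : (c * b) ^ (m + 1) ≤ vl μ ((⟨c, hc.le⟩ : ℝ≥0) • B) := by
        have e : vl μ ((⟨c, hc.le⟩ : ℝ≥0) • B) = c ^ (m + 1) * vl μ B := by
          have := V_smul_replicate μ (⟨c, hc.le⟩ : ℝ≥0) B (finrank ℝ G) 0 (by simp)
          rw [add_zero, add_zero, V_self, V_self, hm] at this
          exact this
        rw [e, mul_pow]
        exact mul_le_mul_of_nonneg_left hB (by positivity)
      have := bm_real μ A ((⟨c, hc.le⟩ : ℝ≥0) • B) ha.le (mul_nonneg hc.le hb)
        (by rw [hm]; exact hA.le) (by rw [hm]; exact h3)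
      rwa [hm] at this
    have h4 : a ^ (m + 1) + ((m : ℝ) + 1) * (a ^ m * (c * b)) ≤ (a + c * b) ^ (m + 1) := by
      have hx : -2 ≤ c * b / a := by
        have : 0 ≤ c * b / a := by positivity
        linarith
      have h5 := one_add_mul_le_pow hx (m + 1)
      have h6 := mul_le_mul_of_nonneg_left h5 (by positivity : 0 ≤ a ^ (m + 1))
      have e1 : a ^ (m + 1) * (1 + c * b / a) ^ (m + 1) = (a + c * b) ^ (m + 1) := by
        rw [← mul_pow, mul_add, mul_one, mul_div_cancel₀ _ ha.ne']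
      have e2 : a ^ (m + 1) * (1 + ((m + 1 : ℕ) : ℝ) * (c * b / a)) =
          a ^ (m + 1) + ((m : ℝ) + 1) * (a ^ m * (c * b)) := by
        push_cast
        rw [pow_succ]
        field_simp
      rw [e1, e2] at h6
      exact h6
    have h8 : c * (((m : ℝ) + 1) * (a ^ m * b)) ≤
        c * (((m : ℝ) + 1) * V μ (B ::ₘ replicate m A) + C * c) := by
      nlinarith
    exact le_of_mul_le_mul_left h8 hc
  have key2 : ((m : ℝ) + 1) * (a ^ m * b) ≤ ((m : ℝ) + 1) * V μ (B ::ₘ replicate m A) := by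
    refine le_of_forall_pos_le_add fun ε hε => ?_
    have hc0 : 0 < min 1 (ε / (C + 1)) := lt_min one_pos (by positivity)
    have h1 := key _ hc0 (min_le_left _ _)
    have h2 : C * min 1 (ε / (C + 1)) ≤ ε := by
      calc C * min 1 (ε / (C + 1)) ≤ C * (ε / (C + 1)) :=
            mul_le_mul_of_nonneg_left (min_le_right _ _) hC
        _ ≤ (C + 1) * (ε / (C + 1)) := mul_le_mul_of_nonneg_right (by linarith) (by positivity)
        _ = ε := by field_simp
    linarith
  exact le_of_mul_le_mul_left key2 (by positivity)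

/-- the volume of the harmonic body, by the mean asymmetry `v = V(K[m], -K) / |K|` -/
theorem harm_vol {m : ℕ} (hm : finrank ℝ G = m + 1) {K W : ConvexBody G} (hW : IsHarm K W)
    (hpos : ∀ f : G →L[ℝ] ℝ, f ≠ 0 → 0 < sp K f) (hK : 0 < vl μ K) {v : ℝ} (hv : 0 < v)
    (h : V μ (rf K ::ₘ replicate m K) ≤ v * vl μ K) :
    vl μ W ≤ (v / (1 + v)) ^ (m + 1) * vl μ K := by
  have h0 : V μ (K ::ₘ replicate m K) = vl μ K := by
    rw [← replicate_succ, ← hm, V_self]
  have h1 := V_key μ hW hpos (replicate m K) (by rw [card_replicate, hm]) (P := vl μ K)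
    (Q := v * vl μ K) hK (mul_pos hv hK) h0.le h
  have h2 : vl μ K * (v * vl μ K) / (vl μ K + v * vl μ K) = v / (1 + v) * vl μ K := by
    have : (1 + v) ≠ 0 := by positivity
    field_simp
  rw [h2] at h1
  set a : ℝ := (vl μ K) ^ (((m + 1 : ℕ) : ℝ)⁻¹) with ha
  have ha0 : 0 < a := Real.rpow_pos_of_pos hK _
  have haA : a ^ (m + 1) = vl μ K := Real.rpow_inv_natCast_pow hK.le (by omega)
  have hW0 : 0 ≤ vl μ W := ENNReal.toReal_nonneg
  set b : ℝ := (vl μ W) ^ (((m + 1 : ℕ) : ℝ)⁻¹) with hb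
  have hb0 : 0 ≤ b := Real.rpow_nonneg hW0 _
  have hbB : b ^ (m + 1) = vl μ W := Real.rpow_inv_natCast_pow hW0 (by omega)
  have h3 := mink1 μ hm K W ha0 hb0 haA hbB.le
  have h4 : a ^ m * b ≤ a ^ m * (v / (1 + v) * a) := by
    refine h3.trans (h1.trans (le_of_eq ?_))
    rw [← haA, pow_succ]
    ring
  have h5 : b ≤ v / (1 + v) * a := le_of_mul_le_mul_left h4 (by positivity)
  rw [← hbB, ← haA, ← mul_pow]
  exact pow_le_pow_left₀ hb0 h5 _

end Pool.Agent.H590.MA

end
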