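import Mathlib

/-!
# Numerical bounds
-/

set_option autoImplicit false

noncomputable section

namespace Pool.Agent.H590.MA

/-- `M_∞` of the centred simplex -/
def dn (n : ℕ) : ℝ := ((n : ℝ) + 1) ^ (n + 1) / n.factorial

theorem dn_pos (n : ℕ) : 0 < dn n := by unfold dn; positivity

theorem dn_succ (n : ℕ) : dn (n + 1) = (((n : ℝ) + 2) / (n + 1)) ^ (n + 2) * dn n := by
  unfold dn
  rw [Nat.factorial_succ]
  push_cast
  have h1 : ((n : ℝ) + 1) ≠ 0 := by positivity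
  have h2 : (n.factorial : ℝ) ≠ 0 := by exact_mod_cast n.factorial_ne_zero
  rw [div_pow]
  have e : ((n : ℝ) + 1 + 1) = (n : ℝ) + 2 := by ring
  rw [e]
  field_simp
  ring

theorem ratio_le (n : ℕ) : (((n : ℝ) + 2) / (n + 1)) ^ (n + 2) ≤
    Real.exp (((n : ℝ) + 2) / (n + 1)) := by
  have h1 : ((n : ℝ) + 2) / (n + 1) ≤ Real.exp (1 / ((n : ℝ) + 1)) := by
    have h2 : ((n : ℝ) + 2) / (n + 1) = 1 / ((n : ℝ) + 1) + 1 := by
      field_simp
      ring
    rw [h2]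
    exact Real.add_one_le_exp _
  calc (((n : ℝ) + 2) / (n + 1)) ^ (n + 2) ≤ (Real.exp (1 / ((n : ℝ) + 1))) ^ (n + 2) :=
        pow_le_pow_left₀ (by positivity) h1 _
    _ = Real.exp (((n : ℝ) + 2) / (n + 1)) := by
        rw [← Real.exp_nat_mul]
        congr 1
        push_cast
        field_simp

/-- the exponential of numbers slightly above one -/
theorem exp_le_of {x y : ℝ} (hy0 : 0 ≤ y) (hy : y < 1) (hx : x ≤ 1 + y) :
    Real.exp x ≤ 2.7182818286 / (1 - y) := by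
  have h1 : Real.exp x ≤ Real.exp 1 * Real.exp y := by
    rw [← Real.exp_add]
    exact Real.exp_le_exp.2 hx
  have h2 : Real.exp y ≤ 1 / (1 - y) := by
    have h3 := Real.add_one_le_exp (-y)
    rw [le_div_iff₀ (by linarith)]
    calc Real.exp y * (1 - y) ≤ Real.exp y * Real.exp (-y) :=
          mul_le_mul_of_nonneg_left (by linarith) (Real.exp_pos _).le
      _ = 1 := by rw [← Real.exp_add]; simp
  calc Real.exp x ≤ Real.exp 1 * Real.exp y := h1
    _ ≤ 2.7182818286 * (1 / (1 - y)) := by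
        gcongr
        exact Real.exp_one_lt_d9.le
    _ = _ := by ring

theorem dn_le_of {n0 : ℕ} {c y : ℝ} (hc : 0 ≤ c) (h0 : dn n0 ≤ c ^ n0) (hy0 : 0 ≤ y) (hy : y < 1)
    (hy1 : 1 / ((n0 : ℝ) + 1) ≤ y) (hyc : 2.7182818286 / (1 - y) ≤ c) (n : ℕ) (hn : n0 ≤ n) :
    dn n ≤ c ^ n := by
  induction n, hn using Nat.le_induction with
  | base => exact h0
  | succ n hn ih =>
    rw [dn_succ, pow_succ c n, mul_comm (c ^ n)]
    refine mul_le_mul ?_ ih (dn_pos n).le hc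
    refine (ratio_le n).trans ((exp_le_of hy0 hy ?_).trans hyc)
    have hn' : (n0 : ℝ) ≤ n := by exact_mod_cast hn
    have h1 : ((n : ℝ) + 2) / (n + 1) = 1 + 1 / ((n : ℝ) + 1) := by
      field_simp
      ring
    rw [h1]
    have h2 : 1 / ((n : ℝ) + 1) ≤ 1 / ((n0 : ℝ) + 1) := by
      apply one_div_le_one_div_of_le (by positivity)
      linarith
    linarith

theorem dn_nine (n : ℕ) (hn : 9 ≤ n) : dn n ≤ (3.12 : ℝ) ^ n := by
  refine dn_le_of (n0 := 9) (y := 1 / 10) (by norm_num) ?_ (by norm_num) (by norm_num)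
    (by norm_num) (by norm_num) n hn
  unfold dn
  norm_num [Nat.factorial]

theorem dn_sixty (n : ℕ) (hn : 60 ≤ n) : dn n ≤ (2.83 : ℝ) ^ n := by
  refine dn_le_of (n0 := 60) (y := 1 / 61) (by norm_num) ?_ (by norm_num) (by norm_num)
    (by norm_num) (by norm_num) n hn
  unfold dn
  norm_num [Nat.factorial]

/-- `(1+p)^(1+1/p)/p ≤ 1.06` for `p ≥ 100` -/
theorem kappa_le {p : ℝ} (hp : 100 ≤ p) : (1 + p) ^ (1 + 1 / p) / p ≤ 1.06 := by
  have hp0 : 0 < p := by linarith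
  have h1p : 0 < 1 + p := by linarith
  have h1 : 1 + p ≤ (1.0495 : ℝ) ^ p := by
    have e : (1.0495 : ℝ) ^ p = ((1.0495 : ℝ) ^ (100 : ℝ)) ^ (p / 100) := by
      rw [← Real.rpow_mul (by norm_num)]
      congr 1
      ring
    have h2 : (125 : ℝ) ≤ (1.0495 : ℝ) ^ (100 : ℝ) := by
      have : (1.0495 : ℝ) ^ (100 : ℝ) = (1.0495 : ℝ) ^ (100 : ℕ) := by
        rw [← Real.rpow_natCast]; norm_num
      rw [this]
      norm_num
    rw [e]
    have h3 : (125 : ℝ) ^ (p / 100) ≤ ((1.0495 : ℝ) ^ (100 : ℝ)) ^ (p / 100) :=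
      Real.rpow_le_rpow (by norm_num) h2 (by positivity)
    have h4 : 1 + p / 100 * 124 ≤ (1 + 124 : ℝ) ^ (p / 100) :=
      one_add_mul_self_le_rpow_one_add (by norm_num) (by linarith)
    have h5 : (1 + 124 : ℝ) = 125 := by norm_num
    rw [h5] at h4
    linarith
  have h6 : (1 + p) ^ (1 / p) ≤ 1.0495 := by
    have h7 := Real.rpow_le_rpow h1p.le h1 (by positivity : 0 ≤ 1 / p)
    rw [← Real.rpow_mul (by norm_num), mul_one_div_cancel hp0.ne', Real.rpow_one] at h7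
    exact h7
  rw [Real.rpow_add h1p, Real.rpow_one, mul_comm, mul_div_assoc]
  have h8 : (1 + p) / p ≤ 1.01 := by
    rw [div_le_iff₀ hp0]
    linarith
  calc (1 + p) ^ (1 / p) * ((1 + p) / p) ≤ 1.0495 * 1.01 := by gcongr
    _ ≤ 1.06 := by norm_num

theorem explicit {n : ℕ} {p v : ℝ} (hp : 100 ≤ p) (hv : 1 ≤ v)
    (h : (9 ≤ n ∧ v ≤ 3 / 2) ∨ (60 ≤ n ∧ v ≤ 2)) :
    ((1 + p) ^ (1 + 1 / p) / p) ^ n * dn n ≤ (2 + 2 / v) ^ n := by
  have hp0 : 0 < p := by linarith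
  have hk := kappa_le hp
  have hk0 : 0 ≤ (1 + p) ^ (1 + 1 / p) / p := by positivity
  have hv0 : 0 < v := by linarith
  rcases h with ⟨hn, hv2⟩ | ⟨hn, hv2⟩
  · calc ((1 + p) ^ (1 + 1 / p) / p) ^ n * dn n ≤ 1.06 ^ n * 3.12 ^ n :=
          mul_le_mul (pow_le_pow_left₀ hk0 hk n) (dn_nine n hn) (dn_pos n).le (by positivity)
      _ = (1.06 * 3.12) ^ n := by rw [mul_pow]
      _ ≤ (2 + 2 / v) ^ n := by
          refine pow_le_pow_left₀ (by norm_num) ?_ n
          have : 4 / 3 ≤ 2 / v := by rw [div_le_div_iff₀ (by norm_num) hv0]; linarith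
          linarith
  · calc ((1 + p) ^ (1 + 1 / p) / p) ^ n * dn n ≤ 1.06 ^ n * 2.83 ^ n :=
          mul_le_mul (pow_le_pow_left₀ hk0 hk n) (dn_sixty n hn) (dn_pos n).le (by positivity)
      _ = (1.06 * 2.83) ^ n := by rw [mul_pow]
      _ ≤ (2 + 2 / v) ^ n := by
          refine pow_le_pow_left₀ (by norm_num) ?_ n
          have : 1 ≤ 2 / v := by rw [le_div_iff₀ hv0]; linarith
          linarith

end Pool.Agent.H590.MA

end
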