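import Pool.Agent.H590.MA.Asym

/-!
# From the volume product to the Mahler volumes, for a general constant

`factor_eq`, `mi_eq_J` and `mp_eq_F` are copied from `Pool.Agent.H322.NM.Gain` (helper322).
-/

set_option autoImplicit false
set_option linter.unusedSectionVars false

open MeasureTheory Set Filter Topology
open scoped Pointwise NNReal ENNReal Matrix

noncomputable section

namespace Pool.Agent.H590.MA

open Pool.Agent.H322.AM
open Pool.Agent.H322.NM (mi_top)
open Pool.Agent.H771.LT (Bdy J F N W hs)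

variable {n : ℕ}

lemma factor_eq {p : ℝ} (hp : 0 < p) (n : ℕ) :
    ((1 / (1 + p) : ℝ) ^ n) ^ (-(1 / p)) * ((1 - 1 / (1 + p)) ^ n)⁻¹ =
      ((1 + p) ^ (1 + 1 / p) / p) ^ n := by
  have h1p : 0 < 1 + p := by linarith
  have h1 : ((1 / (1 + p) : ℝ) ^ n) ^ (-(1 / p)) = ((1 + p) ^ (1 / p)) ^ n := by
    rw [Real.rpow_neg (by positivity), one_div_pow, one_div, Real.inv_rpow (by positivity),
      inv_inv, ← Real.rpow_natCast, ← Real.rpow_natCast, ← Real.rpow_mul h1p.le,
      ← Real.rpow_mul h1p.le, mul_comm]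
  rw [h1, ← inv_pow, ← mul_pow, Real.rpow_add h1p, Real.rpow_one]
  congr 1
  have h2 : 1 - 1 / (1 + p) = p / (1 + p) := by
    rw [eq_div_iff h1p.ne', sub_mul, one_mul, one_div_mul_cancel h1p.ne']
    ring
  rw [h2, inv_div]
  ring

lemma mi_eq_J {K : Set (Fin n → ℝ)} (h : Bdy K) (h0 : (0 : Fin n → ℝ) ∈ interior K) :
    mi K = ENNReal.ofReal (volume.real K * J K) := by
  have hint := Pool.Agent.H771.LT.int_exp_hs h h0 one_pos
  simp only [neg_mul, one_mul] at hint
  rw [ENNReal.ofReal_mul measureReal_nonneg, ofReal_measureReal h.comp.measure_lt_top.ne]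
  unfold J
  rw [ofReal_integral_eq_lintegral_ofReal hint (Eventually.of_forall fun y =>
    (Real.exp_pos _).le)]
  rfl

lemma mp_eq_F {K : Set (Fin n → ℝ)} (h : Bdy K) (h0 : (0 : Fin n → ℝ) ∈ interior K) {p : ℝ}
    (hp : 0 < p) :
    mp p K = ENNReal.ofReal (volume.real K ^ (1 + 1 / p) * (1 / p) ^ n * F K (1 / p)) := by
  have hV := Pool.Agent.H771.LT.vol_real_pos h
  have hs0 : 0 < 1 / p := by positivity
  have e1 : ∀ y : Fin n → ℝ, (∫ x in K, Real.exp (p * ∑ i, x i * y i)) = N K (p • y) := by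
    intro y
    unfold N W
    refine integral_congr_ae (Eventually.of_forall fun x => ?_)
    simp only [one_mul]
    rw [dotProduct_smul, smul_eq_mul]
    rfl
  have e2 : ∀ y : Fin n → ℝ,
      ((∫ x in K, Real.exp (p * ∑ i, x i * y i)) / (volume K).toReal) ^ (-(1 / p)) =
      volume.real K ^ (1 / p) * (fun z => N K z ^ (-(1 / p))) (p • y) := by
    intro y
    have hN := Pool.Agent.H771.LT.N_pos h (p • y)
    have hr : (volume K).toReal = volume.real K := rfl
    rw [e1, hr, Real.div_rpow hN.le hV.le, Real.rpow_neg hV.le, div_inv_eq_mul, mul_comm]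
  have hint : Integrable fun y : Fin n → ℝ =>
      volume.real K ^ (1 / p) * (fun z => N K z ^ (-(1 / p))) (p • y) :=
    ((Pool.Agent.H771.LT.int_F h h0 hs0).comp_smul hp.ne').const_mul _
  unfold mp
  simp only [e2]
  rw [← ofReal_integral_eq_lintegral_ofReal hint (Eventually.of_forall fun y =>
    mul_nonneg (Real.rpow_nonneg hV.le _) (Real.rpow_nonneg
      (Pool.Agent.H771.LT.N_pos h _).le _))]
  rw [integral_const_mul, Measure.integral_comp_smul volume (fun z => N K z ^ (-(1 / p))) p]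
  simp only [Module.finrank_fintype_fun_eq_card, Fintype.card_fin, smul_eq_mul]
  rw [abs_of_pos (by positivity)]
  have e3 : volume K = ENNReal.ofReal (volume.real K) :=
    (ofReal_measureReal h.comp.measure_lt_top.ne).symm
  rw [e3, ← ENNReal.ofReal_mul hV.le]
  congr 1
  rw [Real.rpow_add hV, Real.rpow_one, one_div, inv_pow]
  unfold F
  ring


section
variable {K : Set (Fin n → ℝ)} {D : ℝ}

theorem mi_of (hD : 0 ≤ D) (hv : Convex ℝ K) (hc : IsCompact K) (hi : (interior K).Nonempty)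
    (h : ∀ z ∈ interior K, ENNReal.ofReal (D / n.factorial) ≤ volume K * volume (pl (tr K z))) :
    ENNReal.ofReal D ≤ mi K := by
  by_cases h0 : (0 : Fin n → ℝ) ∈ interior K
  · have h1 := mi_tr hc h0
    have e : tr K 0 = K := by
      unfold tr
      simp
    rw [e] at h1
    have h2 := h 0 h0
    rw [e] at h2
    rw [h1, mul_left_comm]
    have h3 : ENNReal.ofReal D = n.factorial * ENNReal.ofReal (D / n.factorial) := by
      rw [← ENNReal.ofReal_natCast, ← ENNReal.ofReal_mul (by positivity)]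
      congr 1
      have : (n.factorial : ℝ) ≠ 0 := by exact_mod_cast n.factorial_ne_zero
      field_simp
    rw [h3]
    gcongr
  · rw [mi_top hc hv hi h0]
    exact le_top

theorem mp_of (hD : 0 ≤ D) (hv : Convex ℝ K) (hc : IsCompact K) (hi : (interior K).Nonempty)
    (h : ∀ z ∈ interior K, ENNReal.ofReal (D / n.factorial) ≤ volume K * volume (pl (tr K z)))
    {p : ℝ} (hp : 0 < p) : ENNReal.ofReal D ≤ mp p K :=
  (mi_of hD hv hc hi h).trans (mi_le_mp hc hi hp)

theorem gain_of (hD : 0 < D) (hv : Convex ℝ K) (hc : IsCompact K) (hi : (interior K).Nonempty)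
    (h : ∀ z ∈ interior K, ENNReal.ofReal (D / n.factorial) ≤ volume K * volume (pl (tr K z)))
    {p : ℝ} (hp : 0 < p) :
    ENNReal.ofReal (((1 + 1 / (2 * p)) ^ (1 + 1 / (2 * p)) *
      (p / (2 * Real.pi)) ^ (1 / (2 * p))) ^ n * D ^ (1 + 1 / (2 * p))) ≤ mp p K := by
  by_cases h0 : (0 : Fin n → ℝ) ∈ interior K
  · have hs0 : 0 < 1 / p := by positivity
    have es : 1 / (2 * p) = 1 / p / 2 := by field_simp
    have hpi := Real.pi_pos
    have eq1 : p / (2 * Real.pi) = 1 / (2 * Real.pi * (1 / p)) := by field_simp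
    have hb : Bdy K := ⟨hc, hi⟩
    rw [mp_eq_F hb h0 hp]
    refine ENNReal.ofReal_le_ofReal ?_
    have h1 := Pool.Agent.H771.LT.comparison hb hv h0 hs0
    rw [← es, ← eq1] at h1
    refine le_trans ?_ h1
    have h2 := mi_of hD.le hv hc hi h
    have hJ := Pool.Agent.H771.LT.J_pos hb h0
    rw [mi_eq_J hb h0] at h2
    have h4 := (ENNReal.ofReal_le_ofReal_iff (by positivity)).1 h2
    gcongr
  · refine le_trans ?_ (mi_le_mp hc hi hp)
    rw [mi_top hc hv hi h0]
    exact le_top

end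

/-- from the bound of the harmonic body to the volume product -/
theorem prod_of {K : Set (Fin n → ℝ)} (h : W679AM.OBody K) {g : ℝ} (hg : 0 < g)
    (hw : volume.real (W679AM.prm K) ≤ g * volume.real K) :
    ENNReal.ofReal (2 ^ n / n.factorial / g) ≤ volume K * volume (pl K) := by
  have h1 := W679AM.GAaux.coord W679AM.za h
  have hfK : volume K ≠ ⊤ := h.comp.measure_lt_top.ne
  have hfP : volume (W679AM.prm K) ≠ ⊤ := ne_top_of_le_ne_top hfK (measure_mono (prm_subset h))
  have h2 : volume (W679AM.prm K) ≤ ENNReal.ofReal g * volume K := by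
    rw [← ofReal_measureReal hfP, ← ofReal_measureReal hfK, ← ENNReal.ofReal_mul hg.le]
    exact ENNReal.ofReal_le_ofReal hw
  have h3 : ENNReal.ofReal ((2 : ℝ) ^ n / n.factorial) ≤
      ENNReal.ofReal g * (volume K * volume (pl K)) := by
    rw [← mul_assoc]
    exact h1.trans (mul_le_mul_left h2 _)
  have h4 : ENNReal.ofReal ((2 : ℝ) ^ n / n.factorial) =
      ENNReal.ofReal g * ENNReal.ofReal (2 ^ n / n.factorial / g) := by
    rw [← ENNReal.ofReal_mul hg.le]
    congr 1
    field_simp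
  rw [h4] at h3
  exact (ENNReal.mul_le_mul_iff_right (by simpa using hg) ENNReal.ofReal_ne_top).1 h3

theorem obody_tr {K : Set (Fin n → ℝ)} (hv : Convex ℝ K) (hc : IsCompact K) {z : Fin n → ℝ}
    (hz : z ∈ interior K) : W679AM.OBody (tr K z) :=
  ⟨tr_compact hc z, tr_convex hv z, tr_zero hz⟩

theorem tr_dil (K : Set (Fin n → ℝ)) (z : Fin n → ℝ) (t : ℝ) :
    tr K z + t • (-(tr K z)) = tr (K + t • (-K)) ((1 - t) • z) := by
  ext x
  constructor
  · rintro ⟨_, ⟨a, ha, rfl⟩, _, ⟨b, hb, rfl⟩, rfl⟩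
    obtain ⟨c, hc, hcb⟩ := Set.mem_neg.1 hb
    refine ⟨a + t • (-c), ⟨a, ha, t • (-c), ⟨-c, by simpa using hc, rfl⟩, rfl⟩, ?_⟩
    have hcb' : c - z = -b := hcb
    have hb' : b = z - c := by rw [← neg_sub, hcb', neg_neg]
    show a + t • (-c) - (1 - t) • z = (a - z) + t • b
    rw [hb']
    module
  · rintro ⟨_, ⟨a, ha, _, ⟨b, hb, rfl⟩, rfl⟩, rfl⟩
    refine ⟨a - z, ⟨a, ha, rfl⟩, t • (b + z), ⟨b + z, ?_, rfl⟩, ?_⟩
    · refine Set.mem_neg.2 ⟨-b, hb, ?_⟩
      show -b - z = -(b + z)
      module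
    · show (a - z) + t • (b + z) = a + t • b - (1 - t) • z
      module

theorem asym_tr (K : Set (Fin n → ℝ)) (z : Fin n → ℝ) : asym (tr K z) = asym K := by
  unfold asym dq
  have h : ∀ t : ℝ, volume.real (tr K z + t • (-(tr K z))) = volume.real (K + t • (-K)) := by
    intro t
    rw [tr_dil]
    unfold Measure.real
    rw [vol_tr]
  have h2 : volume.real (tr K z) = volume.real K := by
    unfold Measure.real
    rw [vol_tr]
  simp only [h, h2]

/-- **the volume product and the mean asymmetry** -/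
theorem product_asym {m : ℕ} {K : Set (Fin (m + 1) → ℝ)} (hv : Convex ℝ K) (hc : IsCompact K)
    {z : Fin (m + 1) → ℝ} (hz : z ∈ interior K) :
    1 ≤ asym K ∧ ENNReal.ofReal ((2 + 2 / asym K) ^ (m + 1) / (m + 1).factorial) ≤
      volume K * volume (pl (tr K z)) := by
  have h := obody_tr hv hc hz
  have h1 := (one_le_v1 h).trans (v1_le_asym h)
  have h2 := prm_asym h
  rw [asym_tr] at h1 h2
  have hpos : 0 < (asym K / (1 + asym K)) ^ (m + 1) := by
    have : 0 < asym K := by linarith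
    positivity
  have h3 := prod_of h hpos h2
  rw [vol_tr] at h3
  refine ⟨h1, le_trans (le_of_eq ?_) h3⟩
  congr 1
  have h4 : asym K ≠ 0 := by linarith
  have h5 : 1 + asym K ≠ 0 := by linarith
  have e : (2 + 2 / asym K) = 2 / (asym K / (1 + asym K)) := by
    field_simp
    ring
  rw [e, div_pow]
  field_simp

theorem vol_real_tr (K : Set (Fin n → ℝ)) (z : Fin n → ℝ) : volume.real (tr K z) = volume.real K := by
  unfold Measure.real
  rw [vol_tr]

theorem sub_tr (K : Set (Fin n → ℝ)) (z : Fin n → ℝ) : tr K z - tr K z = K - K := by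
  have h := tr_dil K z 1
  rw [one_smul, one_smul, sub_self, zero_smul, ← sub_eq_add_neg, ← sub_eq_add_neg] at h
  rw [h]
  unfold tr
  simp

/-- Godbersen's inequality in coordinates (library) -/
theorem godb {K : Set (Fin n → ℝ)} (h : W679AM.OBody K) (i j : ℕ) (hij : i + j = n) :
    Pool.Agent.TH650.MV.V volume (Multiset.replicate i (cb h) +
      Multiset.replicate j (Pool.Agent.H590.M3.rf (cb h))) ≤
      ((i + j).choose i : ℝ) * volume.real K := by
  have hfin : Module.finrank ℝ (Fin n → ℝ) = n := by simp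
  set e : (Fin n → ℝ) ≃L[ℝ] EuclideanSpace ℝ (Fin n) := (EuclideanSpace.equiv (Fin n) ℝ).symm with he
  have hmp : MeasurePreserving (WithLp.toLp 2 : (Fin n → ℝ) → EuclideanSpace ℝ (Fin n)) :=
    PiLp.volume_preserving_toLp (Fin n)
  have hvol : ∀ S : Set (Fin n → ℝ), IsCompact S → volume (e '' S) = volume S := by
    intro S hS
    have h1 : (WithLp.toLp 2 : (Fin n → ℝ) → EuclideanSpace ℝ (Fin n)) ⁻¹' (e '' S) = S := by
      ext x
      constructor
      · rintro ⟨y, hy, hxy⟩
        have : e x = e y := hxy.symm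
        rwa [e.injective this]
      · intro hx
        exact ⟨x, hx, rfl⟩
    have h2 := hmp.measure_preimage (hS.image e.continuous).measurableSet.nullMeasurableSet
    rw [h1] at h2
    exact h2.symm
  have himg : ∀ a b : ℝ, a • (e '' K) + b • (-(e '' K)) = e '' (a • K + b • (-K)) := by
    intro a b
    ext y
    constructor
    · rintro ⟨_, ⟨_, ⟨x, hx, rfl⟩, rfl⟩, _, ⟨w, hw, rfl⟩, rfl⟩
      obtain ⟨x', hx', hxw⟩ := Set.mem_neg.1 hw
      refine ⟨a • x + b • (-x'), ⟨a • x, ⟨x, hx, rfl⟩, b • (-x'), ⟨-x', by simpa using hx', rfl⟩,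
        rfl⟩, ?_⟩
      show e (a • x + b • (-x')) = a • e x + b • w
      rw [map_add, map_smul, map_smul, map_neg, hxw, neg_neg]
    · rintro ⟨_, ⟨_, ⟨x, hx, rfl⟩, _, ⟨w, hw, rfl⟩, rfl⟩, rfl⟩
      refine ⟨a • e x, ⟨e x, ⟨x, hx, rfl⟩, rfl⟩, b • e w, ⟨e w, ?_, rfl⟩, ?_⟩
      · exact Set.mem_neg.2 ⟨-w, hw, by rw [map_neg]⟩
      · show a • e x + b • e w = e (a • x + b • w)
        rw [map_add, map_smul, map_smul]
  have hcp : ∀ a b : ℝ, IsCompact (a • K + b • (-K)) := fun a b =>
    (h.comp.smul a).add (h.comp.neg.smul b)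
  have hpoly : ∀ a b : ℝ, 0 ≤ a → 0 ≤ b →
      (volume (a • (e '' K) + b • (-(e '' K)))).toReal =
      ∑ i ∈ Finset.range (n + 1), (n.choose i : ℝ) *
        Pool.Agent.TH650.MV.V volume (Multiset.replicate i (cb h) +
          Multiset.replicate (n - i) (Pool.Agent.H590.M3.rf (cb h))) * a ^ i * b ^ (n - i) := by
    intro a b ha hb
    rw [himg, hvol _ (hcp a b)]
    lift a to ℝ≥0 using ha
    lift b to ℝ≥0 using hb
    have h1 := Pool.Agent.TH984.GE12.vl_two (volume : Measure (Fin n → ℝ)) (cb h)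
      (Pool.Agent.H590.M3.rf (cb h)) a b
    rw [hfin] at h1
    refine Eq.trans ?_ h1
    unfold Pool.Agent.TH650.MV.vl
    rw [ConvexBody.coe_add, ConvexBody.coe_smul', ConvexBody.coe_smul', coe_rf']
    rfl
  have hint : (interior (e '' K)).Nonempty := by
    have h1 : e '' (interior K) ⊆ interior (e '' K) :=
      interior_maximal (image_mono interior_subset) (e.isOpenMap _ isOpen_interior)
    exact ⟨e 0, h1 ⟨0, h.zero, rfl⟩⟩
  have hconv : Convex ℝ (e '' K) := h.conv.linear_image e.toLinearEquiv.toLinearMap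
  have h2 := (Pool.Agent.TH984.GE12.ineq n (e '' K) (h.comp.image e.continuous) hconv hint
    (fun i => Pool.Agent.TH650.MV.V volume (Multiset.replicate i (cb h) +
      Multiset.replicate (n - i) (Pool.Agent.H590.M3.rf (cb h)))) hpoly i (by omega)).1
  have e3 : n - i = j := by omega
  rw [e3, hvol _ h.comp] at h2
  rw [hij]
  exact h2

/-- the volume product in dimension three -/
theorem product_three {K : Set (Fin 3 → ℝ)} (hv : Convex ℝ K) (hc : IsCompact K)
    {z : Fin 3 → ℝ} (hz : z ∈ interior K) :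
    let v := (volume.real (K - K) / volume.real K - 2) / 6
    1 ≤ v ∧ v ≤ 3 ∧ ENNReal.ofReal
      (16 * (1 + v) ^ 3 * (3 + v) / (3 * v * (3 * v + 1) ^ 2)) ≤
      volume K * volume (pl (tr K z)) := by
  intro v
  have h := obody_tr hv hc hz
  obtain ⟨ε, hε, hεW⟩ := exists_eps' h
  have hfin : Module.finrank ℝ (Fin 3 → ℝ) = 3 := by simp
  have hV := vl_pos h
  have hM : Pool.Agent.H590.M3.T volume (cb h) (cb h) (Pool.Agent.H590.M3.rf (cb h)) ≤
      3 * Pool.Agent.TH650.MV.vl volume (cb h) := by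
    have h1 := godb h 2 1 rfl
    have e : Pool.Agent.H590.M3.T volume (cb h) (cb h) (Pool.Agent.H590.M3.rf (cb h)) =
        Pool.Agent.TH650.MV.V volume (Multiset.replicate 2 (cb h) +
          Multiset.replicate 1 (Pool.Agent.H590.M3.rf (cb h))) := rfl
    rw [e]
    refine h1.trans (le_of_eq ?_)
    rw [vl_cb]
    norm_num
  have h2 := Pool.Agent.H590.M3.vol_three (μ := (volume : Measure (Fin 3 → ℝ))) hfin vol_neg'
    (isHarm_hb h) (fun f hf => pos_cb h f hf) (rf_hb h) hV hε hεW hM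
  have hd := Pool.Agent.H590.M3.vl_diff (μ := (volume : Measure (Fin 3 → ℝ))) hfin vol_neg' (cb h)
  rw [vl_diff_cb, sub_tr] at hd
  rw [vl_cb, vol_real_tr] at hd h2 hM
  rw [vl_hb] at h2
  rw [vol_real_tr] at hV
  have hv' : v = Pool.Agent.H590.M3.T volume (cb h) (cb h) (Pool.Agent.H590.M3.rf (cb h)) /
      volume.real K := by
    simp only [v]
    rw [hd]
    field_simp
    ring
  rw [← hv'] at h2
  have hv1 := h2.1
  have hv3 : v ≤ 3 := by
    rw [hv', div_le_iff₀ hV]
    exact hM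
  have hg : 0 < Pool.Agent.H590.M3.g3 v := by
    unfold Pool.Agent.H590.M3.g3
    have : 0 < v := by linarith
    positivity
  have h3 := prod_of h hg (by rw [vol_real_tr]; exact h2.2)
  rw [vol_tr] at h3
  refine ⟨hv1, hv3, le_trans (le_of_eq ?_) h3⟩
  congr 1
  unfold Pool.Agent.H590.M3.g3
  have hv0 : v ≠ 0 := by linarith
  have hv2 : 3 * v + 1 ≠ 0 := by linarith
  have hv4 : 1 + v ≠ 0 := by linarith
  have hv5 : 3 + v ≠ 0 := by linarith
  norm_num [Nat.factorial]
  field_simp
  ring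

end Pool.Agent.H590.MA

end
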